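import Pool.Agent.Helper17.R8.Sheet

/-! # Row DDIV of `Pool.Agent.Helper17.R8.Sheet` -/

set_option autoImplicit false

namespace Pool.Helper17.R8

open Polynomial

theorem ddiv_norm (q : ℕ) [hq : Fact q.Prime] (k : ℤ) (h : ¬ (q : ℤ) ^ 2 ∣ k) :
    (q : ℝ)⁻¹ ≤ ‖(k : ℚ_[q])‖ := by
  have hk : k ≠ 0 := by rintro rfl; exact h (dvd_zero _)
  have hk' : (k : ℚ_[q]) ≠ 0 := by exact_mod_cast hk
  have h1 : ¬ ‖(k : ℚ_[q])‖ ≤ (q : ℝ) ^ (-(2 : ℕ) : ℤ) := fun h' =>
    h (by exact_mod_cast (Padic.norm_int_le_pow_iff_dvd (p := q) k 2).1 h')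
  rw [Padic.norm_eq_zpow_neg_valuation hk'] at h1 ⊢
  have hq1 : (1 : ℝ) < q := by exact_mod_cast hq.out.one_lt
  rw [zpow_le_zpow_iff_right₀ hq1, not_le] at h1
  rw [← zpow_neg_one, zpow_le_zpow_iff_right₀ hq1]
  push_cast at h1
  omega

theorem st_DDIV : ST_DDIV := by
  intro P q hq hdeg hlc t ht
  have : Fact q.Prime := ⟨hq⟩
  by_contra hcon
  push Not at hcon
  have hinj : Function.Injective t := by
    intro i j hij
    by_contra hne
    exact hcon i j hne (by rw [hij, sub_self]; exact dvd_zero _)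
  have hq0 : (0 : ℝ) < q := by exact_mod_cast hq.pos
  set P' : ℚ_[q][X] := P.map (Int.castRingHom ℚ_[q]) with hP'
  have hcast : Function.Injective (Int.castRingHom ℚ_[q]) := Int.cast_injective
  have hP0 : P ≠ 0 := by rintro rfl; simp at hdeg
  have hdeg' : P'.degree = 5 := by
    rw [hP', Polynomial.degree_map_eq_of_injective hcast, Polynomial.degree_eq_natDegree hP0, hdeg]
    rfl
  have hlead : P'.leadingCoeff = ((P.leadingCoeff : ℤ) : ℚ_[q]) := by
    rw [hP', Polynomial.leadingCoeff_map_of_injective hcast]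
    rfl
  have hsum := Lagrange.leadingCoeff_eq_sum (s := (Finset.univ : Finset (Fin 6)))
    (v := fun i => ((t i : ℤ) : ℚ_[q]))
    (fun i _ j _ hij => hinj (Int.cast_injective (α := ℚ_[q]) hij)) (P := P')
    (by rw [hdeg']; simp; norm_num)
  rw [hlead] at hsum
  have hbound : ‖((P.leadingCoeff : ℤ) : ℚ_[q])‖ ≤ (q : ℝ)⁻¹ := by
    rw [hsum]
    refine IsUltrametricDist.norm_sum_le_of_forall_le_of_nonneg (by positivity) fun i _ => ?_
    have e1 : P'.eval ((t i : ℤ) : ℚ_[q]) = ((P.eval (t i) : ℤ) : ℚ_[q]) := by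
      rw [hP', Polynomial.eval_map]
      exact Polynomial.eval₂_at_apply (Int.castRingHom ℚ_[q]) (t i)
    have e2 : ‖P'.eval ((t i : ℤ) : ℚ_[q])‖ ≤ (q : ℝ)⁻¹ ^ 6 := by
      rw [e1]
      have := (Padic.norm_int_le_pow_iff_dvd (p := q) (P.eval (t i)) 6).2
        (by exact_mod_cast ht i)
      refine this.trans (le_of_eq ?_)
      rw [zpow_neg, inv_pow]
      norm_cast
    have e3 : (q : ℝ)⁻¹ ^ 5 ≤ ‖∏ j ∈ Finset.univ.erase i, (((t i : ℤ) : ℚ_[q]) - ((t j : ℤ) : ℚ_[q]))‖ := by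
      rw [norm_prod]
      have hc : (Finset.univ.erase i : Finset (Fin 6)).card = 5 := by
        rw [Finset.card_erase_of_mem (Finset.mem_univ i)]
        simp
      calc (q : ℝ)⁻¹ ^ 5 = ∏ j ∈ (Finset.univ.erase i : Finset (Fin 6)), (q : ℝ)⁻¹ := by
            rw [Finset.prod_const, hc]
        _ ≤ _ := by
            refine Finset.prod_le_prod (fun _ _ => by positivity) fun j hj => ?_
            have := ddiv_norm q (t i - t j) (hcon i j (Finset.ne_of_mem_erase hj).symm)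
            push_cast at this
            exact this
    rw [norm_div, div_le_iff₀ (lt_of_lt_of_le (by positivity) e3)]
    calc ‖P'.eval ((t i : ℤ) : ℚ_[q])‖ ≤ (q : ℝ)⁻¹ ^ 6 := e2
      _ = (q : ℝ)⁻¹ * (q : ℝ)⁻¹ ^ 5 := by ring
      _ ≤ _ := mul_le_mul_of_nonneg_left e3 (by positivity)
  apply hlc
  have hlt : ‖((P.leadingCoeff : ℤ) : ℚ_[q])‖ < 1 :=
    lt_of_le_of_lt hbound (inv_lt_one_of_one_lt₀ (by exact_mod_cast hq.one_lt))
  exact Padic.norm_intCast_lt_one_iff.1 hlt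

end Pool.Helper17.R8
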