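import Pool.Agent.Helper16.RK.RANK
import Pool.Agent.Helper16.RK.HOM
import Pool.Agent.Helper16.RK.LIN

/-! # Rank certificate for points with denominators (`X = x / z²`, `Y = y / z³`) -/

set_option autoImplicit false

namespace Pool.Agent.Helper97.RK

open Polynomial

/-- squares modulo `q`, with denominators -/
theorem padz (q : ℕ) [Fact q.Prime] (A B e : ℤ) (he : ((e ^ 3 + A * e + B : ℤ) : ZMod q) = 0)
    (hde : ((3 * e ^ 2 + A : ℤ) : ZMod q) ≠ 0) :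
    ∃ θ : ℚ_[q], θ ^ 3 + (A : ℚ_[q]) * θ + (B : ℚ_[q]) = 0 ∧
    ∀ (n : ℕ) (x d : Fin n → ℤ) (S : Finset (Fin n)),
      IsSquare (∏ i ∈ S, ((x i : ℚ_[q]) - (d i : ℚ_[q]) ^ 2 * θ)) →
        IsSquare (∏ i ∈ S, ((x i - d i ^ 2 * e : ℤ) : ZMod q)) := by
  have h1 : aeval (e : ℤ_[q]) (X ^ 3 + C A * X + C B : ℤ[X]) =
      ((e ^ 3 + A * e + B : ℤ) : ℤ_[q]) := by
    simp
  have h2 : aeval (e : ℤ_[q]) (derivative (X ^ 3 + C A * X + C B : ℤ[X])) =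
      ((3 * e ^ 2 + A : ℤ) : ℤ_[q]) := by
    simp [map_ofNat]
  have n1 : ‖((e ^ 3 + A * e + B : ℤ) : ℤ_[q])‖ < 1 :=
    (PadicInt.norm_int_lt_one_iff_dvd _).2 ((ZMod.intCast_zmod_eq_zero_iff_dvd _ q).1 he)
  have n2 : ‖((3 * e ^ 2 + A : ℤ) : ℤ_[q])‖ = 1 := by
    apply le_antisymm (PadicInt.norm_le_one _)
    by_contra h
    exact hde ((ZMod.intCast_zmod_eq_zero_iff_dvd _ q).2
      ((PadicInt.norm_int_lt_one_iff_dvd _).1 (not_le.1 h)))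
  obtain ⟨z, hz0, hz1, -, -⟩ := hensels_lemma (p := q) (F := (X ^ 3 + C A * X + C B : ℤ[X]))
    (a := (e : ℤ_[q])) (by rw [h1, h2, n2]; simpa using n1)
  rw [h2, n2] at hz1
  have hz2 : z ^ 3 + (A : ℤ_[q]) * z + (B : ℤ_[q]) = 0 := by
    have h3 : aeval z (X ^ 3 + C A * X + C B : ℤ[X]) =
      z ^ 3 + (A : ℤ_[q]) * z + (B : ℤ_[q]) := by
      simp
    rw [← h3]
    exact hz0
  have hz3 : PadicInt.toZMod z = (e : ZMod q) := by
    have h4 : z - (e : ℤ_[q]) ∈ RingHom.ker (PadicInt.toZMod : ℤ_[q] →+* ZMod q) := by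
      rw [PadicInt.ker_toZMod, IsLocalRing.mem_maximalIdeal, PadicInt.mem_nonunits]
      exact hz1
    rw [RingHom.mem_ker, map_sub, map_intCast, sub_eq_zero] at h4
    exact h4
  refine ⟨(z : ℚ_[q]), ?_, ?_⟩
  · exact_mod_cast congrArg (fun w : ℤ_[q] => (w : ℚ_[q])) hz2
  · intro n x d S ⟨w, hw⟩
    have h5 : ∏ i ∈ S, ((x i : ℚ_[q]) - (d i : ℚ_[q]) ^ 2 * (z : ℚ_[q])) =
        ((∏ i ∈ S, ((x i : ℤ_[q]) - (d i : ℤ_[q]) ^ 2 * z) : ℤ_[q]) : ℚ_[q]) := by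
      have h6 := map_prod (PadicInt.Coe.ringHom (p := q))
        (fun i => ((x i : ℤ_[q]) - (d i : ℤ_[q]) ^ 2 * z)) S
      simp only [map_sub, map_mul, map_pow, map_intCast] at h6
      exact h6.symm
    have h7 : ‖w‖ ≤ 1 := by
      have h8 : ‖w‖ * ‖w‖ ≤ 1 := by
        rw [← norm_mul, ← hw, h5]
        exact PadicInt.norm_le_one _
      by_contra h9
      have h10 : 1 < ‖w‖ := not_le.1 h9
      nlinarith
    obtain ⟨w', hw'⟩ : ∃ w' : ℤ_[q], (w' : ℚ_[q]) = w := ⟨⟨w, h7⟩, rfl⟩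
    have h11 : ∏ i ∈ S, ((x i : ℤ_[q]) - (d i : ℤ_[q]) ^ 2 * z) = w' * w' := by
      apply Subtype.ext
      have h12 : ((∏ i ∈ S, ((x i : ℤ_[q]) - (d i : ℤ_[q]) ^ 2 * z) : ℤ_[q]) : ℚ_[q]) =
          ((w' * w' : ℤ_[q]) : ℚ_[q]) := by
        rw [← h5, hw, PadicInt.coe_mul, hw']
      exact h12
    refine ⟨PadicInt.toZMod w', ?_⟩
    rw [← map_mul, ← h11, map_prod]
    apply Finset.prod_congr rfl
    intro i _
    rw [map_sub, map_mul, map_pow, map_intCast, map_intCast, hz3]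
    push_cast
    rfl

theorem rank_nsz (A B x y z : ℤ) (hz : z ≠ 0) (h : y ^ 2 = x ^ 3 + A * x * z ^ 4 + B * z ^ 6)
    (hD : 4 * A ^ 3 + 27 * B ^ 2 ≠ 0) :
    ((cur A B).toAffine).Nonsingular ((x : ℚ) / (z : ℚ) ^ 2) ((y : ℚ) / (z : ℚ) ^ 3) := by
  have hΔ : ((cur A B).toAffine).Δ ≠ 0 := by
    have e : ((cur A B).toAffine).Δ = -16 * ((4 * A ^ 3 + 27 * B ^ 2 : ℤ) : ℚ) := by
      simp only [WeierstrassCurve.Δ, WeierstrassCurve.b₂, WeierstrassCurve.b₄,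
        WeierstrassCurve.b₆, WeierstrassCurve.b₈, cur]
      push_cast
      ring
    rw [e]
    exact mul_ne_zero (by norm_num) (by exact_mod_cast hD)
  rw [← WeierstrassCurve.Affine.equation_iff_nonsingular_of_Δ_ne_zero hΔ,
    WeierstrassCurve.Affine.equation_iff]
  have hq : (y : ℚ) ^ 2 = (x : ℚ) ^ 3 + A * x * z ^ 4 + B * z ^ 6 := by
    exact_mod_cast h
  have hz' : (z : ℚ) ≠ 0 := by exact_mod_cast hz
  simp only [cur, zero_mul, add_zero]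
  field_simp
  linear_combination hq

/-- rank certificate, denominators allowed: the points `(x i / z i ^ 2, y i / z i ^ 3)` -/
theorem rankz (n : ℕ) (A B : ℤ) (x y z : Fin n → ℤ) (hz : ∀ i, z i ≠ 0)
    (hxy : ∀ i, y i ^ 2 = x i ^ 3 + A * x i * z i ^ 4 + B * z i ^ 6)
    (hD : 4 * A ^ 3 + 27 * B ^ 2 ≠ 0) (p : ℕ)
    (hno : ∀ t : ZMod p, t ^ 3 + (A : ZMod p) * t + (B : ZMod p) ≠ 0)
    (hcert : ∀ S : Finset (Fin n), S.Nonempty → ∃ (q : ℕ) (e : ℤ), q.Prime ∧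
      ((e ^ 3 + A * e + B : ℤ) : ZMod q) = 0 ∧ ((3 * e ^ 2 + A : ℤ) : ZMod q) ≠ 0 ∧
      ¬ IsSquare (∏ i ∈ S, ((x i - z i ^ 2 * e : ℤ) : ZMod q))) :
    (n : Cardinal) ≤ Module.rank ℤ ((cur A B).toAffine).Point := by
  refine st_LIN _ (rank_tor A B p hno) n
    (fun i => WeierstrassCurve.Affine.Point.some ((x i : ℚ) / (z i : ℚ) ^ 2)
      ((y i : ℚ) / (z i : ℚ) ^ 3) (rank_nsz A B (x i) (y i) (z i) (hz i) (hxy i) hD)) ?_
  intro S hS Q hQ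
  obtain ⟨q, e, hq, he, hde, hns⟩ := hcert S hS
  have : Fact q.Prime := ⟨hq⟩
  obtain ⟨θ, hθ, hsq⟩ := padz q A B e he hde
  have hrat : ∀ z : ℚ, algebraMap ℚ ℚ_[q] z ≠ θ := by
    intro z hz
    apply rank_noroot A B p hno z
    have h4 : ((z : ℚ) : ℚ_[q]) = θ := by
      rw [← hz]
      simp
    rw [← h4] at hθ
    exact_mod_cast hθ
  obtain ⟨φ, hφ0, hφx, hφn, hφm⟩ := st_HOM ℚ_[q] A B θ hθ hrat
  set P : Fin n → ((cur A B).toAffine).Point := fun i =>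
    WeierstrassCurve.Affine.Point.some ((x i : ℚ) / (z i : ℚ) ^ 2)
      ((y i : ℚ) / (z i : ℚ) ^ 3) (rank_nsz A B (x i) (y i) (z i) (hz i) (hxy i) hD) with hP
  have key : ∀ T : Finset (Fin n), IsSquare (φ (∑ i ∈ T, P i) * ∏ i ∈ T, φ (P i)) := by
    intro T
    induction T using Finset.induction_on with
    | empty =>
      simp [hφ0]
    | insert a T haT ih =>
      rw [Finset.sum_insert haT, Finset.prod_insert haT]
      have h5 := hφm (P a) (∑ i ∈ T, P i)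
      have h6 := h5.mul ih
      apply rank_sq (hφn (∑ i ∈ T, P i))
      refine (congrArg IsSquare ?_).mp h6
      ring
  have h7 := key S
  have hQ' : ∑ i ∈ S, P i = Q + Q := hQ
  rw [hQ'] at h7
  have h8 : IsSquare (φ (Q + Q)) := rank_sq (hφn Q) (hφm Q Q)
  have h9 : IsSquare (∏ i ∈ S, φ (P i)) := by
    apply rank_sq (hφn (Q + Q))
    refine (congrArg IsSquare ?_).mp (h8.mul h7)
    ring
  apply hns
  apply hsq n x z S
  have h10 : ∀ i, (x i : ℚ_[q]) - (z i : ℚ_[q]) ^ 2 * θ = (z i : ℚ_[q]) * (z i : ℚ_[q]) * φ (P i) := by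
    intro i
    have hz' : (z i : ℚ_[q]) ≠ 0 := by exact_mod_cast hz i
    rw [hP]
    simp only
    rw [hφx]
    have e1 : algebraMap ℚ ℚ_[q] ((x i : ℚ) / (z i : ℚ) ^ 2) =
        (x i : ℚ_[q]) / (z i : ℚ_[q]) ^ 2 := by
      simp
    rw [e1]
    field_simp
  have h11 : ∏ i ∈ S, ((x i : ℚ_[q]) - (z i : ℚ_[q]) ^ 2 * θ) =
      (∏ i ∈ S, (z i : ℚ_[q])) * (∏ i ∈ S, (z i : ℚ_[q])) * ∏ i ∈ S, φ (P i) := by
    rw [← Finset.prod_mul_distrib, ← Finset.prod_mul_distrib]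
    exact Finset.prod_congr rfl fun i _ => h10 i
  rw [h11]
  exact (IsSquare.mul_self _).mul h9

end Pool.Agent.Helper97.RK
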