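import Pool.Agent.Helper17.R8.Sheet
import Pool.Agent.Helper44.R8.RANKZ

/-! # Row RANKQ of `Pool.Agent.Helper17.R8.Sheet` -/

set_option autoImplicit false

namespace Pool.Agent.Helper97.RK

theorem rank_nsq (A B : ℤ) (x y : ℚ) (h : y ^ 2 = x ^ 3 + (A : ℚ) * x + (B : ℚ))
    (hD : 4 * A ^ 3 + 27 * B ^ 2 ≠ 0) :
    ((cur A B).toAffine).Nonsingular x y := by
  have hΔ : ((cur A B).toAffine).Δ ≠ 0 := by
    have e : ((cur A B).toAffine).Δ = -16 * ((4 * A ^ 3 + 27 * B ^ 2 : ℤ) : ℚ) := by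
      simp only [WeierstrassCurve.Δ, WeierstrassCurve.b₂, WeierstrassCurve.b₄,
        WeierstrassCurve.b₆, WeierstrassCurve.b₈, cur]
      push_cast
      ring
    rw [e]
    exact mul_ne_zero (by norm_num) (by exact_mod_cast hD)
  rw [← WeierstrassCurve.Affine.equation_iff_nonsingular_of_Δ_ne_zero hΔ,
    WeierstrassCurve.Affine.equation_iff]
  simp only [cur, zero_mul, add_zero]
  linear_combination h

/-- rank certificate, denominators allowed -/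
theorem rankq (n : ℕ) (A B : ℤ) (x z : Fin n → ℤ) (hz : ∀ i, z i ≠ 0)
    (hxy : ∀ i, ∃ y : ℚ, y ^ 2 = ((x i : ℚ) / (z i : ℚ) ^ 2) ^ 3 +
      (A : ℚ) * ((x i : ℚ) / (z i : ℚ) ^ 2) + (B : ℚ))
    (hD : 4 * A ^ 3 + 27 * B ^ 2 ≠ 0) (p : ℕ)
    (hno : ∀ t : ZMod p, t ^ 3 + (A : ZMod p) * t + (B : ZMod p) ≠ 0)
    (hcert : ∀ S : Finset (Fin n), S.Nonempty → ∃ (q : ℕ) (e : ℤ), q.Prime ∧
      ((e ^ 3 + A * e + B : ℤ) : ZMod q) = 0 ∧ ((3 * e ^ 2 + A : ℤ) : ZMod q) ≠ 0 ∧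
      ¬ IsSquare (∏ i ∈ S, ((x i - z i ^ 2 * e : ℤ) : ZMod q))) :
    (n : Cardinal) ≤ Module.rank ℤ ((cur A B).toAffine).Point := by
  choose y hy using hxy
  refine st_LIN _ (rank_tor A B p hno) n
    (fun i => WeierstrassCurve.Affine.Point.some ((x i : ℚ) / (z i : ℚ) ^ 2)
      (y i) (rank_nsq A B _ _ (hy i) hD)) ?_
  intro S hS Q hQ
  obtain ⟨q, e, hq, he, hde, hns⟩ := hcert S hS
  have : Fact q.Prime := ⟨hq⟩
  obtain ⟨θ, hθ, hsq⟩ := padz q A B e he hde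
  have hrat : ∀ z : ℚ, algebraMap ℚ ℚ_[q] z ≠ θ := by
    intro z hz
    apply rank_noroot A B p hno z
    have h4 : ((z : ℚ) : ℚ_[q]) = θ := by
      rw [← hz]
      simp
    rw [← h4] at hθ
    exact_mod_cast hθ
  obtain ⟨φ, hφ0, hφx, hφn, hφm⟩ := st_HOM ℚ_[q] A B θ hθ hrat
  set P : Fin n → ((cur A B).toAffine).Point := fun i =>
    WeierstrassCurve.Affine.Point.some ((x i : ℚ) / (z i : ℚ) ^ 2)
      (y i) (rank_nsq A B _ _ (hy i) hD) with hP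
  have key : ∀ T : Finset (Fin n), IsSquare (φ (∑ i ∈ T, P i) * ∏ i ∈ T, φ (P i)) := by
    intro T
    induction T using Finset.induction_on with
    | empty =>
      simp [hφ0]
    | insert a T haT ih =>
      rw [Finset.sum_insert haT, Finset.prod_insert haT]
      have h5 := hφm (P a) (∑ i ∈ T, P i)
      have h6 := h5.mul ih
      apply rank_sq (hφn (∑ i ∈ T, P i))
      refine (congrArg IsSquare ?_).mp h6
      ring
  have h7 := key S
  have hQ' : ∑ i ∈ S, P i = Q + Q := hQ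
  rw [hQ'] at h7
  have h8 : IsSquare (φ (Q + Q)) := rank_sq (hφn Q) (hφm Q Q)
  have h9 : IsSquare (∏ i ∈ S, φ (P i)) := by
    apply rank_sq (hφn (Q + Q))
    refine (congrArg IsSquare ?_).mp (h8.mul h7)
    ring
  apply hns
  apply hsq n x z S
  have h10 : ∀ i, (x i : ℚ_[q]) - (z i : ℚ_[q]) ^ 2 * θ = (z i : ℚ_[q]) * (z i : ℚ_[q]) * φ (P i) := by
    intro i
    have hz' : (z i : ℚ_[q]) ≠ 0 := by exact_mod_cast hz i
    rw [hP]
    simp only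
    rw [hφx]
    have e1 : algebraMap ℚ ℚ_[q] ((x i : ℚ) / (z i : ℚ) ^ 2) =
        (x i : ℚ_[q]) / (z i : ℚ_[q]) ^ 2 := by
      simp
    rw [e1]
    field_simp
  have h11 : ∏ i ∈ S, ((x i : ℚ_[q]) - (z i : ℚ_[q]) ^ 2 * θ) =
      (∏ i ∈ S, (z i : ℚ_[q])) * (∏ i ∈ S, (z i : ℚ_[q])) * ∏ i ∈ S, φ (P i) := by
    rw [← Finset.prod_mul_distrib, ← Finset.prod_mul_distrib]
    exact Finset.prod_congr rfl fun i _ => h10 i
  rw [h11]
  exact (IsSquare.mul_self _).mul h9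

end Pool.Agent.Helper97.RK

namespace Pool.Helper17.R8

theorem st_RANKQ : ST_RANKQ := by
  intro n A B X v hv hy hD p hno hcert
  refine Pool.Agent.Helper97.RK.rankq n A B X v hv hy hD p hno fun S hS => ?_
  obtain ⟨q, e, h1, h2, h3, h4⟩ := hcert S hS
  refine ⟨q, e, h1, h2, h3, ?_⟩
  have h5 : ∏ i ∈ S, ((X i - v i ^ 2 * e : ℤ) : ZMod q) =
      ∏ i ∈ S, ((X i - e * v i ^ 2 : ℤ) : ZMod q) :=
    Finset.prod_congr rfl fun i _ => by rw [mul_comm]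
  rw [h5]
  exact h4

end Pool.Helper17.R8
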