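import Pool.Agent.Helper17.R8.Sheet

/-! # Row VIE of `Pool.Agent.Helper17.R8.Sheet` -/

set_option autoImplicit false

namespace Pool.Helper17.R8

theorem ek_eq_esymm {R : Type} [CommRing R] (s : Fin 8 → R) (k : ℕ) :
    ek s k = (Multiset.map s (Finset.univ : Finset (Fin 8)).val).esymm k := by
  rw [ek, Finset.esymm_map_val]

theorem st_VIE : ST_VIE := by
  intro R _ s x
  have h := Multiset.prod_X_sub_X_eq_sum_esymm (R := R)
    (Multiset.map s (Finset.univ : Finset (Fin 8)).val)
  have h2 := congrArg (Polynomial.eval x) h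
  have hc : Multiset.card (Multiset.map s (Finset.univ : Finset (Fin 8)).val) = 8 := by
    simp
  have h3 : Polynomial.eval x (Multiset.map (fun t => Polynomial.X - Polynomial.C t)
      (Multiset.map s (Finset.univ : Finset (Fin 8)).val)).prod = ∏ i, (x - s i) := by
    rw [Polynomial.eval_multiset_prod, Multiset.map_map, Multiset.map_map]
    simp [Finset.prod]
  rw [h3, hc] at h2
  rw [h2, Polynomial.eval_finsetSum]
  simp only [Finset.sum_range_succ, Finset.sum_range_zero, ← ek_eq_esymm, Polynomial.eval_mul,
    Polynomial.eval_pow, Polynomial.eval_neg, Polynomial.eval_one, Polynomial.eval_C,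
    Polynomial.eval_X]
  have h0 : ek s 0 = 1 := by simp [ek]
  rw [h0]
  norm_num
  ring

end Pool.Helper17.R8
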